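import Pool.Agent.R936.GTF.Arb

/-!
# The generalised Tate conjecture over finite fields for products with an arbitrary factor

Let `X i`, `i ∈ I`, be a family (finite or infinite) of smooth projective varieties of dimension at most
`d` over the field with `q = p ^ e` elements, with slopes in `(1 / D) ℤ` and with Frobenius eigenvalues
which generate a group of rank at most `R`. Assume the generalised Tate conjecture for the products of
at most `gtcBound R d D` members (so for all products of members, by `BoundedProducts`).

*Theorem.* There is one product `Y = X i₀ × X j₁ × ⋯ × X jₘ` of members of the family such that for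
**every** smooth projective variety `Z` over the field with `q` elements: the generalised Tate conjecture
(for all degrees and all levels) holds for `Z × Y ^ (dim Z)` if and only if it holds for `Z × P` for
all products `P` of members of the family. Nothing is assumed about `Z`.

*Proof.* A divisible Frobenius eigenvector on `Z × P` is a linear combination of classes `z ⊗ w` with a
word `w` in the Frobenius eigenvectors of the members, and for all `p`-adic valuations (normalised by
`v(q) = 1`) the sums `v(z) + v(w)` and `v'(z) + v'(w)`, with `v'(x) = deg(x) - v(x)`, are at least `c`.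
Since `v(z)` and `v'(z)` are at most `dim Z`, a lemma of Dickson type gives `c = c₁ + c₂` and a word `b`
on `Y ^ (dim Z)` such that `z ⊗ b` is divisible by `q ^ c₁` and `w / b` is divisible by `q ^ c₂`; the
finite set of the minimal solutions determines `Y`. The class `u ⊗ w`, where `u` is a word dual to `b`,
has coniveau at least `dim Y ^ (dim Z) + c₂` by the case of the products of members, and the contraction
of `z ⊗ b` with it is a nonzero multiple of `z ⊗ w`.
-/

open CategoryTheory AlgebraicGeometry

universe u v w

namespace Pool.Agent.Results.MP_8abef2_ag.ArbitraryFactor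

open Pool.Agent.H914 Pool.Agent.W534 Pool.Agent.R936.Hel Pool.Agent.R936.ArbF Pool.Agent.R936.GTF
  VarClass Obj WeilCohomology
open Pool.Agent.R940 (HasIntegralPolys IsSlopeDenominator)

/-- **One product of members decides for all varieties `Z`**: the generalised Tate conjecture for `Z`
times all products of members of a family over a finite field follows from the one for
`Z × Y ^ (dim Z)`, where the product `Y` of members does not depend on `Z`. -/
theorem result {k : Type u} [Field k] {𝒱 : VarClass k} {ops : CycleOps 𝒱}
    (W : WeilCohomology.{u, v} ops) [IsAlgClosed W.K] (σ : W.K →+* ℂ) (p : ℕ) [Fact p.Prime]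
    (Φ : FrobSystem W p) (hRH : ∀ Z : 𝒱.Obj, RiemannHyp Φ σ Z) (N : Filtration W)
    (hN : IsConiveau N) {I : Type w} [Nonempty I] (X : I → 𝒱.Obj) (e : ℕ)
    (he : ∀ i, Φ.e (X i) = e) (hint : ∀ i, HasIntegralPolys Φ σ (X i)) (D : ℕ)
    (hD : ∀ i, IsSlopeDenominator Φ σ (X i) D) (R : ℕ)
    (hR : RankLe {z | ∃ i, z ∈ eigenvalues Φ σ (X i)} R) (d : ℕ) (hd : ∀ i, (X i).dim ≤ d)
    (h : ∀ i L, (i :: L).length ≤ gtcBound R d D → GTC Φ N (prodOf X i L)) :
    ∃ (i₀ : I) (L₀ : List I), ∀ Z : 𝒱.Obj, Φ.e Z = e → HasIntegralPolys Φ σ Z →
      (GTC Φ N (Z.prod (powerOf X i₀ L₀ Z.dim)) ↔ ∀ i L, GTC Φ N (Z.prod (prodOf X i L))) :=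
  gtc_arb hRH hN he hint hD hR hd h

end Pool.Agent.Results.MP_8abef2_ag.ArbitraryFactor
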