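import Pool.Agent.R936.GTF.Main

/-!
# The generalised Tate conjecture over finite fields: bounded products decide

Let `X i`, `i ∈ I`, be a family (finite or infinite) of smooth projective varieties of dimension at most
`d` over the field with `q = p ^ e` elements, with slopes in `(1 / D) ℤ`, and let `R` be the rank of the
multiplicative group generated by all eigenvalues of the Frobenius endomorphisms on the cohomology
groups of the `X i`. `W` is a Weil cohomology theory, for instance `ℓ`-adic cohomology with coefficients
in an algebraic closure of `ℚ_ℓ`, and `N` the coniveau filtration.

*Theorem.* Let `m = b (2 b (B + 1) + 1) ^ b` with `b = t + (2 B + 1) ^ t`, `B = D (d + 1)` and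
`t = 2 (2 D d + 1) ^ R + 1`. If the generalised Tate conjecture holds for all products of at most `m`
members of the family, it holds for all products of members of the family: a subspace `V` of `H^i`
which is stable under Frobenius and such that all eigenvalues `α` on `V` are divisible by `q ^ c`, and
`q ^ (i - c) / α` is integral, is of coniveau at least `c`.

For example, the generalised Tate conjecture for all powers of a variety over a finite field
can be decided on one explicit power; and the generalised Tate conjecture for all products of curves
of genus at most `g` over the field with `q` elements whose Frobenius eigenvalues lie in a given number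
field `K` can be decided on the products with at most `m` factors (`R` is at most the number of primes
of `K` above `p`, and `D` divides `e * (2 g)!`).

*Proof.* A product of eigenvectors has an eigenvalue `λ` with the required divisibility if and only if
all `p`-adic valuations `v(λ)` and `v(q ^ i / λ)`, normalised with `v(q) = 1`, are at least `c`. The
eigenvectors with the same `v(λ ^ 2 / q ^ i)`, for all `v`, and with the same parity of `i` can be
replaced by each other, by multiplication with a Tate class and division by a Tate class on a
product with two factors; there are at most `2 (2 D d + 1) ^ R` such classes. A word in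
these letters together with `c` copies of an auxiliary letter with the valuations `-1` lies in a cone,
and by the pigeonhole principle a long word in a cone is a sum of two shorter ones in the cone. So its
coniveau is at least the sum of the coniveaus required for the two parts.
-/

open CategoryTheory AlgebraicGeometry

universe u v w

namespace Pool.Agent.Results.MP_8abef2_ag.BoundedProducts

open Pool.Agent.H914 Pool.Agent.W534 Pool.Agent.R936.Hel Pool.Agent.R936.GTF VarClass Obj
  WeilCohomology
open Pool.Agent.R940 (HasIntegralPolys IsSlopeDenominator)

/-- **The generalised Tate conjecture for products of members of a family**: if the Frobenius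
eigenvalues generate a group of rank at most `R`, the slopes have the common denominator `D` and the
members are of dimension at most `d`, the products of at most `gtcBound R d D` members decide. -/
theorem result {k : Type u} [Field k] {𝒱 : VarClass k} {ops : CycleOps 𝒱}
    (W : WeilCohomology.{u, v} ops) [IsAlgClosed W.K] (σ : W.K →+* ℂ) (p : ℕ) [Fact p.Prime]
    (Φ : FrobSystem W p) (N : Filtration W) (hN : IsConiveau N) {I : Type w} (X : I → 𝒱.Obj)
    (hRH : ∀ i, RiemannHyp Φ σ (X i)) (e : ℕ) (he : ∀ i, Φ.e (X i) = e)
    (hint : ∀ i, HasIntegralPolys Φ σ (X i)) (D : ℕ) (hD : ∀ i, IsSlopeDenominator Φ σ (X i) D)
    (R : ℕ) (hR : RankLe {z | ∃ i, z ∈ eigenvalues Φ σ (X i)} R) (d : ℕ)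
    (hd : ∀ i, (X i).dim ≤ d)
    (h : ∀ i L, (i :: L).length ≤ gtcBound R d D → GTC Φ N (prodOf X i L)) :
    ∀ i L, GTC Φ N (prodOf X i L) :=
  gtc_red hRH hN he hint hD hR hd h

end Pool.Agent.Results.MP_8abef2_ag.BoundedProducts
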