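import Pool.Agent.R905.RF.MainGT

/-!
# The generalized Tate conjecture and the cohomology of rational function fields
-/

set_option autoImplicit false

namespace Pool.Agent.Results.MP_8abef2_ag.EigenvaluesOnRationalFields

open Pool.Agent.R905.RF

/-- Let `F` be a finite field with `q` elements, `K` an algebraic closure of `ℚ_ℓ`, `α` in `K` of weight
`2r - m`, and `c, N ≥ 0`. The following statements are equivalent:

1. for `c + 2 ≤ n ≤ N + 1`, `α` is not an eigenvalue of the Frobenius on
   `H^{2n-m-1}(F_0 𝔸^n, ℚ_ℓ(n-r))` (the fields `F(x_1, ..., x_n)`);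
2. for all irreducible varieties `X` over `F` of dimension `d`, `c < d ≤ N`, `α` is not an eigenvalue of
   the Frobenius on `H^{2d-m}(F_0 X̄, ℚ_ℓ(d-r))`;
3. for all varieties `X` over `F` of dimension at most `N`, the generalized eigenspace for `α` on
   `H_m^{BM}(X̄, ℚ_ℓ)(-r)` is supported in dimension at most `c`;
4. the same for the varieties in a class `S` which dominates all these varieties, such as the smooth
   projective varieties: for `r = 0` and `X` smooth projective of dimension `d` the generalized
   eigenspace for `α q^d` on `H^{2d-m}(X̄, ℚ_ℓ)` is contained in `N^{d-c}`. -/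
theorem result (F : Type) [Field F] [Finite F] (K : Type) [Field K] (T : BorelMoore F K)
    (hT : T.IsHomology) (hF : HypersurfaceModels F) (α : K) (m r : ℤ) (hα : T.LowestWeight α m r)
    (c N : ℕ) (S : Var F → Prop) (hS : T.Dominating S α m r c N) :
    [T.RationalFunctionFields α m r c N, T.FunctionFields α m r c N,
      T.SupportedIn (fun _ => True) α m r c N, T.SupportedIn S α m r c N].TFAE :=
  BorelMoore.tfae_main hT hF hα c N S hS

end Pool.Agent.Results.MP_8abef2_ag.EigenvaluesOnRationalFields
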