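import Mathlib
import Pool.Agent.Y126.Glue
import Pool.Agent.Y128.GT.Fin
import Pool.Agent.R930.Three
import Pool.Agent.R930.Notions
import Pool.Agent.R930.SympOdd

/-!
# The generalized Tate conjecture for all powers of an abelian variety with an ordinary place and
# one suitable place for each geometric piece

Let `A` be an abelian variety over a number field `k` (or over any finitely generated field), `ℓ` a prime
number, `V = V_ℓ(A)` the rational Tate module with the action `ρ` of the Galois group `Γ`, `b` a basis of
the lattice `T_ℓ(A)`, `χ` the cyclotomic character and `ω` the Weil pairing of a polarization; `K` is the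
algebraic closure of `ℚ_ℓ` and `X = K ⊗ V`. By theorems of Faltings `V` is semisimple, also over finite
extensions of `k`, and the endomorphisms of `V` which commute with the Galois group come from
endomorphisms of `A`. The Frobenius elements at the places of good reduction away from `ℓ` (`IsFrob`:
the characteristic polynomial has integral coefficients and roots of absolute value `p ^ (a / 2)`) are
dense in `Γ`.

Suppose that every strongly irreducible subspace `U` of `X` is symplectic (the geometric simple factors
of `A` are of type I or II in the classification of Albert) and that for each `U` one of the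
following holds (`GoodPieces`); the place may depend on `U`:

* `A` has good reduction at ONE place with at most three slopes `s`, `1 / 2`, `1 - s` such that for one
  embedding of the eigenvalues of the Frobenius element in the algebraic closure of `ℚ_p` the slope `s`
  is simple on `U`; or with two slopes such that exactly one eigenvalue on `U` has prescribed slopes with
  respect to two embeddings;
* the dimension of `U` is at most four, and `A` has good reduction at one place with at most three slopes
  `s`, `1 / 2`, `1 - s` such that `s ≠ 1 / 2` occurs on `U`;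
* an element `γ` of an inertia group acts on `V` with `(γ - 1) ^ 2 = 0`, and `γ - 1` has rank one or two
  on `U` (one place of semistable reduction of small toric rank);
* the dimension of `U` is two modulo four (odd relative dimension), and the Frobenius elements with two
  slopes (`IsTwoSlope`; for instance those at ordinary places) are dense in `Γ`.

Moreover let `γ` be the Frobenius element of ONE place of good ordinary reduction with a residue field
of `p ^ a` elements (`OrdinaryFrobenius`).

Then the generalized Tate conjecture is true for all powers `A ^ n`, in all degrees `i` and for all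
levels `ν`: a subspace `S` of `H^i(A^n, ℚ_ℓ)` which is stable under the Galois group and whose twist
`S(ν)` is effective (it suffices: at the given ordinary place, `EffectiveTwist`) is contained in the
span of the products `B 1 ∧ ... ∧ B ν ∧ η`, where `B s` are Tate classes of degree two (divisor classes,
by the theorem of Faltings) and `η` is any class of degree `i - 2 ν` (`divisorProducts`). These products
are supported on closed subsets of codimension `ν`.

The theorem `main_gtc` of `Pool/Agent/Y128/GT/Fin.lean` (second fundamental theorem for the symplectic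
group) derives the generalized Tate conjecture from the statement that all Tate classes on all powers are
generated in degree two; the latter is proved here under the given conditions, with square-zero
elements of rank one in the Lie algebra of the Galois group obtained from the places.
-/

namespace Pool.Agent.Results.MP_8abef2_ag.OnePlaceForEachPiece

open Module TensorProduct Polynomial Pool.Agent.Y126.Notions Pool.Agent.R930
  Pool.Agent.R930.Notions Pool.Agent.Y128.GT

noncomputable section

/-- All strongly irreducible subspaces `U` are symplectic, and for each of them there is a Frobenius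
element with three slopes, of which the outer ones are simple on `U` or occur on `U` and the dimension
is at most four; or a Frobenius element with two slopes and a simple pair of slopes; or a quadratic
unipotent element of rank one or two on `U`; or the dimension is two modulo four and the elements of `D`
are dense. -/
def GoodPieces {K X Γ : Type} [Field K] [CharZero K] [AddCommGroup X] [Module K X] [Group Γ]
    [TopologicalSpace Γ] (R : Representation K Γ X) (χ : Γ →* K) (F : Γ → ℕ → ℕ → ℤ[X] → Prop)
    (D : Set Γ) : Prop :=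
  ∀ U, StronglyIrreducible R U → IsSymplectic R χ U ∧
    (SimpleSlope R F U ∨ (finrank K U ≤ 4 ∧ OuterSlope R F U) ∨
    (∃ γ : Γ, (R γ - 1) * (R γ - 1) = 0 ∧ (finrank K (U.map (R γ - 1)) = 1 ∨
      finrank K (U.map (R γ - 1)) = 2)) ∨ (finrank K U % 4 = 2 ∧ Dense D))

open Pool.Agent.H204R3.SP Pool.Agent.H204R3.GP Pool.Agent.W522.U Pool.Agent.TH776.FM
  Pool.Agent.Y126.Toric

/-- The representation is given, in a basis of the Tate module, by integral matrices which are
continuous functions on the group. -/
def ContinuousIntegral {ℓ : ℕ} [Fact ℓ.Prime] {V Γ : Type} [AddCommGroup V] [Module ℚ_[ℓ] V]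
    [Group Γ] [TopologicalSpace Γ] (ρ : Representation ℚ_[ℓ] Γ V) : Prop :=
  ∃ (d : ℕ) (b : Basis (Fin d) ℚ_[ℓ] V), (∀ g i j, ‖LinearMap.toMatrix b b (ρ g) i j‖ ≤ 1) ∧
    ∀ i j, Continuous fun g => LinearMap.toMatrix b b (ρ g) i j

theorem result (ℓ : ℕ) [Fact ℓ.Prime] {V Γ : Type} [AddCommGroup V] [Module ℚ_[ℓ] V]
    [FiniteDimensional ℚ_[ℓ] V] [Group Γ] [TopologicalSpace Γ] [IsTopologicalGroup Γ]
    (ρ : Representation ℚ_[ℓ] Γ V) (χ : Γ →* ℚ_[ℓ])
    (ω : V →ₗ[ℚ_[ℓ]] V →ₗ[ℚ_[ℓ]] ℚ_[ℓ]) (hA : IsTateModule ρ χ ω)
    (hcontinuous : ContinuousIntegral ρ) (hfrobenius : Dense {γ | IsFrob ρ χ γ})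
    (hpieces : GoodPieces (extend (AlgebraicClosure ℚ_[ℓ]) ρ)
      ((algebraMap ℚ_[ℓ] (AlgebraicClosure ℚ_[ℓ]) : ℚ_[ℓ] →* _).comp χ) (IsFrobenius ρ χ)
      {γ | IsTwoSlope ρ χ γ})
    (p a : ℕ) [Fact p.Prime] (ha : 0 < a) (γ : Γ) (hγ : OrdinaryFrobenius ρ χ p a γ)
    (n i ν : ℕ) (S : Submodule ℚ_[ℓ] ((Fin n → V) [⋀^Fin i]→ₗ[ℚ_[ℓ]] ℚ_[ℓ]))
    (hS : ∀ s, ∀ f ∈ S, pull (ρ s) f ∈ S)
    (hE : EffectiveTwist p a i ν (pull (ρ γ)) S (hS γ)) :
    S ≤ Submodule.span ℚ_[ℓ] (divisorProducts ρ χ n i ν) := by
  obtain ⟨d, b, hintegral, hcontinuous⟩ := hcontinuous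
  obtain ⟨halt, hnondeg, hω, hsemisimple⟩ := hA
  have hl1 : ∀ u, (∀ v, bcb (AlgebraicClosure ℚ_[ℓ]) ω u v = 0) → u = 0 := fun u hu =>
    bcb_nondeg_left ω hnondeg (left_nondeg ω halt hnondeg) u hu
  have hinv := bcb_inv (Ω := AlgebraicClosure ℚ_[ℓ]) ρ χ ω hω
  have hpr : HasProj (bcr ρ (AlgebraicClosure ℚ_[ℓ])) := hasProj_bcr ρ _ hsemisimple
  have hlie := lieGenerate_of_dense hintegral hcontinuous hfrobenius
  have hdual : ∀ U, StronglyIrreducible (extend (AlgebraicClosure ℚ_[ℓ]) ρ) U →
      AreDual (extend (AlgebraicClosure ℚ_[ℓ]) ρ)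
        ((algebraMap ℚ_[ℓ] (AlgebraicClosure ℚ_[ℓ]) : ℚ_[ℓ] →* _).comp χ) U U := by
    intro U hU
    obtain ⟨Δ, hΔ, B, h0, -, hB⟩ := (hpieces U hU).1
    exact ⟨Δ, hΔ, B, h0, hB⟩
  have hlines : NoSelfDualLines (extend (AlgebraicClosure ℚ_[ℓ]) ρ)
      ((algebraMap ℚ_[ℓ] (AlgebraicClosure ℚ_[ℓ]) : ℚ_[ℓ] →* _).comp χ) := by
    intro U hU h1 _
    have h2 := altDual_two_le (hpieces U hU).1
    omega
  have hgen : GeneratedInDegreeTwo ρ χ := by
    refine (Pool.Agent.Y126.Glue.conclusion ℓ ρ χ ω halt hnondeg hω hsemisimple ?_ hlines ?_).2 ?_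
    · intro U hU h2
      obtain ⟨hs, h | ⟨h4, h⟩ | ⟨γ, hγ, h | h⟩ | ⟨h4, hD⟩⟩ := hpieces U hU
      · exact one_of_simple (bcb _ ω) hl1 hinv hpr hlie hU hs (hasSimple h)
      · exact one_of_four (bcb _ ω) hl1 hinv hpr hlie hU hs h4 (hasSlope h)
      · exact Pool.Agent.Y126.Toric.one_of_gcd (bcb _ ω) hl1 hinv hpr hU hγ
          fun p hp => ⟨1, Or.inl h.symm, hp.one_lt.ne' ∘ Nat.dvd_one.1⟩
      · exact Pool.Agent.Y126.Toric.one_of_alt (bcb _ ω) hl1 hinv hpr hU hs hγ (Or.inl h.symm)
          (Or.inl rfl)
      · exact one_of_symp_odd (bcb _ ω) hl1 hinv hpr hU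
          (weakGenerate_of_dense hintegral hcontinuous hD) hs h4
    · intro U U' hU hU' h2 hd ψ hψ
      exact absurd (hdual U hU) hd
    · intro Q _ hQ L hL
      obtain ⟨q⟩ := hQ
      exact hL.2.1 q q (hdual (L q) (hL.1 q))
  have hT : TateGeneratedInDegreeTwo ρ χ := by
    intro n m f hf
    refine Submodule.span_mono ?_ (hgen n m f hf)
    rintro g ⟨B, hB, hg⟩
    refine ⟨B, fun l => ?_, hg⟩
    obtain ⟨Δ, hΔ, h1⟩ := hB l
    exact ⟨Δ, hΔ, fun s hs v => by rw [pow_one]; exact h1 s hs v⟩
  have hSC : SymplecticConstituents ρ χ := by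
    intro U hU
    obtain ⟨Δ, hΔ, B, h0, h1, hB⟩ := (hpieces U hU).1
    exact ⟨B, Δ, hΔ, h1, h0, hB⟩
  exact main_gtc ⟨halt, hnondeg, hω, hsemisimple⟩ hT hSC p a ha γ hγ n i ν S hS hE

end

end Pool.Agent.Results.MP_8abef2_ag.OnePlaceForEachPiece
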